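import Pool.Agent.H419.BS.Main

/-! The law along the primes in Bohr sets. -/

set_option autoImplicit false
set_option linter.unusedSectionVars false

namespace Pool.Agent.H419.BS

open NumberField IsDedekindDomain Filter Topology MeasureTheory UnitAddTorus
open Pool.Agent.W540.BE (upto nm mem_upto)
open Pool.Agent.Helper644_ST (card_pos_ev)
open scoped ENNReal NNReal

variable {K : Type} [Field K] [NumberField K]

open Classical in
theorem mean_eq (P : HeightOneSpectrum (𝓞 K) → Prop) (φ : HeightOneSpectrum (𝓞 K) → ℂ) (N : ℕ) :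
    mean P φ N = (∑ v ∈ (upto K N).filter P, φ v) / (((upto K N).filter P).card : ℂ) := by
  have hs : ∀ v, v ∈ (upto K N).filter P ↔ P v ∧ q v ≤ N := by
    intro v
    rw [Finset.mem_filter, mem_upto, and_comm]
    rfl
  let e : {v : HeightOneSpectrum (𝓞 K) // P v ∧ q v ≤ N} ≃ ((upto K N).filter P) :=
    Equiv.subtypeEquivRight fun v => (hs v).symm
  have h1 : (∑ᶠ v : {v : HeightOneSpectrum (𝓞 K) // P v ∧ q v ≤ N}, φ v.1) =
      ∑ v ∈ (upto K N).filter P, φ v := by
    rw [← Finset.sum_coe_sort, ← finsum_eq_sum_of_fintype, ← finsum_comp_equiv e]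
    rfl
  have h2 : Nat.card {v : HeightOneSpectrum (𝓞 K) // P v ∧ q v ≤ N} =
      ((upto K N).filter P).card := by
    rw [Nat.card_congr e, Nat.card_eq_fintype_card, Fintype.card_coe]
  unfold mean
  rw [h1, h2]

theorem meanAll_eq (φ : HeightOneSpectrum (𝓞 K) → ℂ) (N : ℕ) :
    meanAll φ N = (∑ v ∈ upto K N, φ v) / (U K N : ℂ) := by
  classical
  rw [meanAll, mean_eq, Finset.filter_true, U]
  simp

theorem meanAll_sub (φ ψ : HeightOneSpectrum (𝓞 K) → ℂ) (N : ℕ) :
    meanAll (fun v => φ v - ψ v) N = meanAll φ N - meanAll ψ N := by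
  rw [meanAll_eq, meanAll_eq, meanAll_eq, Finset.sum_sub_distrib, sub_div]

theorem norm_meanAll_le {φ : HeightOneSpectrum (𝓞 K) → ℂ} {ψ : HeightOneSpectrum (𝓞 K) → ℝ}
    (h : ∀ v, ‖φ v‖ ≤ ψ v) (N : ℕ) : ‖meanAll φ N‖ ≤ (meanAll (fun v => (ψ v : ℂ)) N).re := by
  have hU : 0 ≤ U K N := by unfold U; positivity
  rw [meanAll_eq, meanAll_eq, norm_div, Complex.norm_real, Real.norm_of_nonneg hU,
    Complex.div_ofReal_re, Complex.re_sum]
  refine div_le_div_of_nonneg_right ?_ hU
  refine (norm_sum_le _ _).trans (Finset.sum_le_sum fun v _ => ?_)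
  rw [Complex.ofReal_re]
  exact h v

variable {X : Type} [TopologicalSpace X] [CompactSpace X] [T2Space X]
  [SecondCountableTopology X]

theorem joint {x : HeightOneSpectrum (𝓞 K) → X} {r : ℕ} {α : Fin r → ℝ} (hα : α ∉ Exc x r) :
    Independent x α := by
  intro F hF
  refine (indep hα ⟨F, hF⟩).congr fun N => ?_
  rw [← meanAll_sub, meanAll_eq]
  rfl

/-- continuous functions of the point of the torus -/
theorem joint_mul {x : HeightOneSpectrum (𝓞 K) → X} {r : ℕ} {α : Fin r → ℝ} (hα : Independent x α)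
    {f : X → ℂ} (hf : Continuous f) {g : UnitAddTorus (Fin r) → ℝ} (hg : Continuous g) :
    Tendsto (fun N => meanAll (fun v => f (x v) * g (pt α v)) N -
      meanAll (fun v => f (x v)) N * ((∫ y, g y ∂(haarT r) : ℝ) : ℂ)) atTop (𝓝 0) := by
  have h := hα (fun p => f p.1 * (g p.2 : ℂ)) (by fun_prop)
  refine h.congr fun N => ?_
  congr 1
  rw [meanAll_eq, meanAll_eq, div_mul_eq_mul_div, Finset.sum_mul]
  congr 1
  refine Finset.sum_congr rfl fun v _ => ?_
  simp only
  rw [integral_const_mul, integral_complex_ofReal]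

/-- **Indicator functions of sets with null frontier.** -/
theorem joint_ind {x : HeightOneSpectrum (𝓞 K) → X} {r : ℕ} {α : Fin r → ℝ} (hα : Independent x α)
    {f : X → ℂ} (hf : Continuous f) {B : Set (UnitAddTorus (Fin r))}
    (hB : haarT r (frontier B) = 0) :
    Tendsto (fun N => meanAll (fun v => f (x v) * (B.indicator (fun _ => (1 : ℝ)) (pt α v) : ℝ)) N -
      meanAll (fun v => f (x v)) N * ((haarT r).real B : ℂ)) atTop (𝓝 0) := by
  obtain ⟨C, hC⟩ : ∃ C : ℝ, ∀ t, ‖f t‖ ≤ C := by
    obtain ⟨C, hC⟩ := isCompact_univ.exists_bound_of_continuousOn hf.continuousOn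
    exact ⟨C, fun t => hC t (Set.mem_univ t)⟩
  set C' : ℝ := max C 0 + 1 with hC'
  have hC'pos : 0 < C' := by positivity
  have hfC : ∀ t, ‖f t‖ ≤ C' := fun t => (hC t).trans (by
    rw [hC']; linarith [le_max_left C 0])
  have hU0 : ∀ N, 0 ≤ U K N := fun N => by unfold U; positivity
  rw [Metric.tendsto_atTop']
  intro ε hε
  set δ : ℝ := ε / (6 * C') with hδ
  have hδpos : 0 < δ := by positivity
  obtain ⟨g₁, g₂, hg1, hg2, hi1, hi2⟩ := sandwich (haarT r) hB hδpos
  have hI1 : Integrable (fun y => g₁ y) (haarT r) :=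
    g₁.continuous.integrable_of_hasCompactSupport (HasCompactSupport.of_compactSpace _)
  have hI2 : Integrable (fun y => g₂ y) (haarT r) :=
    g₂.continuous.integrable_of_hasCompactSupport (HasCompactSupport.of_compactSpace _)
  have hle : ∫ y, g₁ y ∂(haarT r) ≤ (haarT r).real B := by
    have h1 : ∫ y, g₁ y ∂(haarT r) ≤ ∫ y, (closure B).indicator (fun _ => (1 : ℝ)) y ∂(haarT r) := by
      refine integral_mono hI1 ((integrable_const _).indicator isClosed_closure.measurableSet)
        fun y => (hg1 y).trans ?_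
      exact Set.indicator_le_indicator_of_subset subset_closure (fun _ => zero_le_one) y
    rw [integral_indicator_const _ isClosed_closure.measurableSet, smul_eq_mul, mul_one] at h1
    have hcl : (haarT r).real (closure B) = (haarT r).real B := by
      rw [measureReal_def, measureReal_def]
      congr 1
      refine le_antisymm ?_ (measure_mono subset_closure)
      calc (haarT r) (closure B) ≤ (haarT r) (B ∪ frontier B) := by
            refine measure_mono fun y hy => ?_
            by_cases h : y ∈ interior B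
            · exact Or.inl (interior_subset h)
            · exact Or.inr ⟨hy, h⟩
        _ ≤ (haarT r) B + (haarT r) (frontier B) := measure_union_le _ _
        _ = (haarT r) B := by rw [hB, add_zero]
    rwa [hcl] at h1
  have hA := joint_mul hα hf g₁.continuous
  have hD := joint_mul hα (f := fun _ : X => (1 : ℂ)) continuous_const
    (g := fun y => g₂ y - g₁ y) (by fun_prop)
  obtain ⟨N₁, hN₁⟩ := (Metric.tendsto_atTop'.1 hA) (ε / 3) (by positivity)
  obtain ⟨N₂, hN₂⟩ := (Metric.tendsto_atTop'.1 hD) δ hδpos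
  obtain ⟨N₃, hN₃⟩ := eventually_atTop.1 (card_pos_ev (F := K))
  refine ⟨max N₁ (max N₂ N₃), fun N hN => ?_⟩
  have h1 := hN₁ N ((le_max_left _ _).trans_lt hN)
  have h2 := hN₂ N (((le_max_left _ _).trans (le_max_right _ _)).trans_lt hN)
  have h3 : 0 < U K N := hN₃ N (((le_max_right _ _).trans (le_max_right _ _)).trans hN.le)
  rw [dist_zero_right] at h1 h2 ⊢
  have hone : meanAll (fun _ : HeightOneSpectrum (𝓞 K) => (1 : ℂ)) N = 1 := by
    rw [meanAll_eq, Finset.sum_const, nsmul_eq_mul, mul_one]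
    have : ((upto K N).card : ℂ) = (U K N : ℂ) := by unfold U; push_cast; rfl
    rw [this, div_self]
    exact_mod_cast h3.ne'
  -- the difference with the lower function
  have hd1 : ‖meanAll (fun v => f (x v) * (B.indicator (fun _ => (1 : ℝ)) (pt α v) : ℝ)) N -
      meanAll (fun v => f (x v) * g₁ (pt α v)) N‖ ≤ C' * (3 * δ) := by
    rw [← meanAll_sub]
    have h4 := norm_meanAll_le (K := K)
      (φ := fun v => f (x v) * (B.indicator (fun _ => (1 : ℝ)) (pt α v) : ℝ) -
        f (x v) * g₁ (pt α v)) (ψ := fun v => C' * (g₂ (pt α v) - g₁ (pt α v))) (fun v => by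
      rw [← mul_sub, ← Complex.ofReal_sub, norm_mul, Complex.norm_real]
      have h5 : 0 ≤ B.indicator (fun _ => (1 : ℝ)) (pt α v) - g₁ (pt α v) := by
        linarith [hg1 (pt α v)]
      rw [Real.norm_of_nonneg h5]
      have h6 : B.indicator (fun _ => (1 : ℝ)) (pt α v) - g₁ (pt α v) ≤
          g₂ (pt α v) - g₁ (pt α v) := by linarith [hg2 (pt α v)]
      exact mul_le_mul (hfC _) h6 h5 hC'pos.le) N
    refine h4.trans ?_
    have e1 : meanAll (K := K) (fun v => ((C' * (g₂ (pt α v) - g₁ (pt α v)) : ℝ) : ℂ)) N =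
        (C' : ℂ) * meanAll (K := K)
          (fun v => (1 : ℂ) * ((g₂ (pt α v) - g₁ (pt α v) : ℝ) : ℂ)) N := by
      rw [meanAll_eq, meanAll_eq, ← mul_div_assoc, Finset.mul_sum]
      congr 1
      refine Finset.sum_congr rfl fun v _ => ?_
      push_cast
      ring
    rw [e1, Complex.re_ofReal_mul]
    refine mul_le_mul_of_nonneg_left ?_ hC'pos.le
    rw [hone, one_mul] at h2
    have h7 := (Complex.abs_re_le_norm _).trans h2.le
    rw [Complex.sub_re, Complex.ofReal_re] at h7
    have h8 := (abs_le.1 h7).2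
    have h9 : ∫ y, (g₂ y - g₁ y) ∂(haarT r) ≤ 2 * δ := by
      rw [integral_sub hI2 hI1]
      linarith
    linarith
  have hd2 : ‖meanAll (fun v => f (x v)) N * ((∫ y, g₁ y ∂(haarT r) : ℝ) : ℂ) -
      meanAll (fun v => f (x v)) N * ((haarT r).real B : ℂ)‖ ≤ C' * δ := by
    rw [← mul_sub, ← Complex.ofReal_sub, norm_mul, Complex.norm_real]
    have h4 : ‖meanAll (fun v => f (x v)) N‖ ≤ C' := by
      have h5 := norm_meanAll_le (K := K) (φ := fun v => f (x v)) (ψ := fun _ => C')
        (fun v => hfC _) N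
      refine h5.trans ?_
      rw [meanAll_eq, Finset.sum_const, nsmul_eq_mul]
      have : ((upto K N).card : ℂ) = (U K N : ℂ) := by unfold U; push_cast; rfl
      rw [this, mul_div_assoc, mul_div_cancel₀]
      · simp
      · exact_mod_cast h3.ne'
    refine mul_le_mul h4 ?_ (norm_nonneg _) hC'pos.le
    rw [Real.norm_eq_abs, abs_le]
    constructor <;> linarith
  have e2 : C' * (3 * δ) = ε / 2 := by rw [hδ]; field_simp; norm_num
  have e3 : C' * δ = ε / 6 := by rw [hδ]; field_simp
  calc ‖meanAll (fun v => f (x v) * (B.indicator (fun _ => (1 : ℝ)) (pt α v) : ℝ)) N -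
        meanAll (fun v => f (x v)) N * ((haarT r).real B : ℂ)‖ =
      ‖(meanAll (fun v => f (x v) * (B.indicator (fun _ => (1 : ℝ)) (pt α v) : ℝ)) N -
        meanAll (fun v => f (x v) * g₁ (pt α v)) N) +
        (meanAll (fun v => f (x v) * g₁ (pt α v)) N -
          meanAll (fun v => f (x v)) N * ((∫ y, g₁ y ∂(haarT r) : ℝ) : ℂ)) +
        (meanAll (fun v => f (x v)) N * ((∫ y, g₁ y ∂(haarT r) : ℝ) : ℂ) -
          meanAll (fun v => f (x v)) N * ((haarT r).real B : ℂ))‖ := by congr 1; ring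
    _ ≤ _ := norm_add₃_le
    _ < ε := by linarith

/-- the density of the primes in a Bohr set -/
theorem density {x : HeightOneSpectrum (𝓞 K) → X} {r : ℕ} {α : Fin r → ℝ} (hα : Independent x α)
    [Nonempty X] {B : Set (UnitAddTorus (Fin r))} (hB : haarT r (frontier B) = 0) :
    Tendsto (fun N => meanAll (K := K)
      (fun v => ((B.indicator (fun _ => (1 : ℝ)) (pt α v) : ℝ) : ℂ)) N)
      atTop (𝓝 ((haarT r).real B : ℂ)) := by
  have h1 := joint_ind hα (f := fun _ : X => (1 : ℂ)) continuous_const hB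
  have h2 : Tendsto (fun N => meanAll (fun _ : HeightOneSpectrum (𝓞 K) => (1 : ℂ)) N *
      ((haarT r).real B : ℂ)) atTop (𝓝 (1 * ((haarT r).real B : ℂ))) := by
    refine Tendsto.mul_const _ (tendsto_const_nhds.congr' ?_)
    filter_upwards [card_pos_ev (F := K)] with N hN
    rw [meanAll_eq, Finset.sum_const, nsmul_eq_mul, mul_one]
    have h3 : ((upto K N).card : ℂ) = (U K N : ℂ) := by unfold U; push_cast; rfl
    have h4 : 0 < U K N := hN
    rw [h3, div_self]
    exact_mod_cast h4.ne'
  have h3 := h1.add h2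
  rw [zero_add, one_mul] at h3
  refine h3.congr fun N => ?_
  simp only [one_mul]
  ring

/-- the mean over the Bohr set -/
theorem mean_bohr {r : ℕ} (α : Fin r → ℝ) (B : Set (UnitAddTorus (Fin r)))
    (φ : HeightOneSpectrum (𝓞 K) → ℂ) (N : ℕ) (hN : 0 < U K N) :
    mean (K := K) (fun v => pt α v ∈ B) φ N =
      meanAll (K := K) (fun v => φ v * (B.indicator (fun _ => (1 : ℝ)) (pt α v) : ℝ)) N /
      meanAll (K := K) (fun v => ((B.indicator (fun _ => (1 : ℝ)) (pt α v) : ℝ) : ℂ)) N := by
  classical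
  have hU : (U K N : ℂ) ≠ 0 := by exact_mod_cast hN.ne'
  rw [mean_eq, meanAll_eq, meanAll_eq, div_div_div_cancel_right₀ hU]
  congr 1
  · rw [Finset.sum_filter]
    refine Finset.sum_congr rfl fun v _ => ?_
    by_cases hv : pt α v ∈ B
    · rw [if_pos hv, Set.indicator_of_mem hv]; simp
    · rw [if_neg hv, Set.indicator_of_notMem hv]; simp
  · rw [Finset.card_filter, Nat.cast_sum]
    refine Finset.sum_congr rfl fun v _ => ?_
    by_cases hv : pt α v ∈ B
    · rw [if_pos hv, Set.indicator_of_mem hv]; simp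
    · rw [if_neg hv, Set.indicator_of_notMem hv]; simp

/-- **The means over a Bohr set.** -/
theorem bohr {x : HeightOneSpectrum (𝓞 K) → X} {r : ℕ} {α : Fin r → ℝ} (hα : Independent x α)
    {f : X → ℂ} (hf : Continuous f) {B : Set (UnitAddTorus (Fin r))}
    (hB : haarT r (frontier B) = 0) (hpos : haarT r B ≠ 0) :
    Tendsto (fun N => mean (fun v => pt α v ∈ B) (fun v => f (x v)) N -
      meanAll (fun v => f (x v)) N) atTop (𝓝 0) := by
  obtain ⟨v0⟩ : Nonempty (HeightOneSpectrum (𝓞 K)) := by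
    obtain ⟨M, hM⟩ := Ideal.exists_maximal (𝓞 K)
    exact ⟨⟨M, hM.isPrime, Ring.ne_bot_of_isMaximal_of_not_isField hM
      (RingOfIntegers.not_isField K)⟩⟩
  have : Nonempty X := ⟨x v0⟩
  have hreal : (haarT r).real B ≠ 0 := by
    rw [measureReal_def, ENNReal.toReal_ne_zero]
    exact ⟨hpos, measure_ne_top _ _⟩
  have hrealC : ((haarT r).real B : ℂ) ≠ 0 := by exact_mod_cast hreal
  obtain ⟨C, hC⟩ : ∃ C : ℝ, ∀ t, ‖f t‖ ≤ C := by
    obtain ⟨C, hC⟩ := isCompact_univ.exists_bound_of_continuousOn hf.continuousOn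
    exact ⟨C, fun t => hC t (Set.mem_univ t)⟩
  have h1 := joint_ind hα hf hB
  have h2 := density hα hB
  -- A/D - M = (A - M c)/D + M (c/D - 1)
  have h3 := h1.div h2 hrealC
  rw [zero_div] at h3
  have h4 : Tendsto (fun N => ((haarT r).real B : ℂ) /
      meanAll (K := K) (fun v => ((B.indicator (fun _ => (1 : ℝ)) (pt α v) : ℝ) : ℂ)) N - 1) atTop
      (𝓝 0) := by
    have h5 := ((tendsto_const_nhds (x := ((haarT r).real B : ℂ))).div h2 hrealC).sub_const 1
    rwa [div_self hrealC, sub_self] at h5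
  have h5 : Tendsto (fun N => meanAll (fun v => f (x v)) N * (((haarT r).real B : ℂ) /
      meanAll (K := K) (fun v => ((B.indicator (fun _ => (1 : ℝ)) (pt α v) : ℝ) : ℂ)) N - 1)) atTop
      (𝓝 0) := by
    refine squeeze_zero_norm' (a := fun N => C * ‖((haarT r).real B : ℂ) /
      meanAll (K := K) (fun v => ((B.indicator (fun _ => (1 : ℝ)) (pt α v) : ℝ) : ℂ)) N - 1‖) ?_ ?_
    · filter_upwards [card_pos_ev (F := K)] with N hN
      have hU : 0 < U K N := hN
      rw [norm_mul]
      refine mul_le_mul_of_nonneg_right ?_ (norm_nonneg _)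
      refine (norm_meanAll_le (K := K) (φ := fun v => f (x v)) (ψ := fun _ => C)
        (fun v => hC _) N).trans ?_
      rw [meanAll_eq, Finset.sum_const, nsmul_eq_mul]
      have : ((upto K N).card : ℂ) = (U K N : ℂ) := by unfold U; push_cast; rfl
      rw [this, mul_div_assoc, mul_div_cancel₀]
      · simp
      · exact_mod_cast hU.ne'
    · simpa using h4.norm.const_mul C
  have h6 := h3.add h5
  rw [add_zero] at h6
  refine h6.congr' ?_
  filter_upwards [card_pos_ev (F := K), h2.eventually_ne hrealC] with N hN hne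
  rw [mean_bohr α B _ N hN]
  simp only [Pi.div_apply]
  field_simp
  ring

end Pool.Agent.H419.BS
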