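import Pool.Agent.H419.BS.Defs

/-! Limsup sets of neighbourhoods of hyperplanes: generalised Hausdorff measures. -/

set_option autoImplicit false

namespace Pool.Agent.H419.BS

open Filter Topology MeasureTheory Finset
open scoped ENNReal

/-- the linear form -/
def lin {r : ℕ} (m : Fin r → ℤ) (α : Fin r → ℝ) : ℝ := ∑ j, m j * α j

theorem null_limsup {r : ℕ} (m : Fin r → ℤ) (hm : m ≠ 0) {h : ℝ≥0∞ → ℝ≥0∞} (hh : IsGauge r h)
    (R : ℕ) (C : ℕ) (D : ℝ) (hD : 0 < D) (a : ℕ → Fin C → ℝ) :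
    Measure.mkMetric h {α : Fin r → ℝ | (∀ j, |α j| ≤ R) ∧
      ∃ᶠ j : ℕ in atTop, ∃ (i : Fin C) (l : ℤ), |lin m α - a j i - l| < D * (2 : ℝ)⁻¹ ^ j} = 0 := by
  classical
  obtain ⟨i0, hi0⟩ : ∃ i, m i ≠ 0 := by
    by_contra hcon
    push Not at hcon
    exact hm (funext hcon)
  set Z := {α : Fin r → ℝ | (∀ j, |α j| ≤ R) ∧
      ∃ᶠ j : ℕ in atTop, ∃ (i : Fin C) (l : ℤ), |lin m α - a j i - l| < D * (2 : ℝ)⁻¹ ^ j} with hZ
  set W : ℝ := ∑ j, |(m j : ℝ)| with hW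
  have hW0 : 0 ≤ W := sum_nonneg fun _ _ => abs_nonneg _
  -- range of the integers
  set Λ : ℕ := ⌈W * R + 1 + D⌉₊ with hΛ
  -- a power of two above the constant of the diameter
  obtain ⟨A, hA⟩ : ∃ A : ℕ, 2 * D + W + 1 ≤ (2 : ℝ) ^ A := by
    obtain ⟨A, hA⟩ := pow_unbounded_of_one_lt (2 * D + W + 1) (one_lt_two)
    exact ⟨A, hA.le⟩
  let J := {j : Fin r // j ≠ i0}
  let Lc : ℕ → ℕ := fun j => 2 * (2 * R + 1) * 2 ^ j
  let ι : ℕ → Type := fun U => Σ u : ℕ, (J → Fin (Lc (U + u))) × Fin C × Fin (2 * Λ + 1)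
  let t : ∀ U : ℕ, ι U → Set (Fin r → ℝ) := fun U p =>
    {α | (∀ j : J, |α j - (-(R : ℝ) + ((p.2.1 j : ℕ) : ℝ) * (2 : ℝ)⁻¹ ^ (U + p.1))| ≤
        (2 : ℝ)⁻¹ ^ (U + p.1) / 2 * 2 ∧
        0 ≤ α j - (-(R : ℝ) + ((p.2.1 j : ℕ) : ℝ) * (2 : ℝ)⁻¹ ^ (U + p.1))) ∧
      |lin m α - Int.fract (a (U + p.1) p.2.2.1) - (((p.2.2.2 : ℕ) : ℤ) - Λ : ℤ)| <
        D * (2 : ℝ)⁻¹ ^ (U + p.1)}
  -- diameters
  have hdiam : ∀ (U : ℕ) (p : ι U), Metric.ediam (t U p) ≤
      ENNReal.ofReal ((2 * D + W) * (2 : ℝ)⁻¹ ^ (U + p.1)) := by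
    intro U p
    have hε : (0 : ℝ) < (2 : ℝ)⁻¹ ^ (U + p.1) := by positivity
    refine Metric.ediam_le fun α hα β hβ => ?_
    rw [edist_dist]
    refine ENNReal.ofReal_le_ofReal ?_
    rw [dist_pi_le_iff (by positivity)]
    have hJ : ∀ j : Fin r, j ≠ i0 → |α j - β j| ≤ (2 : ℝ)⁻¹ ^ (U + p.1) := by
      intro j hj
      have h1 := hα.1 ⟨j, hj⟩
      have h2 := hβ.1 ⟨j, hj⟩
      have h1' := (abs_le.1 h1.1)
      have h2' := (abs_le.1 h2.1)
      rw [abs_le]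
      constructor <;> linarith [h1.2, h2.2, h1'.1, h1'.2, h2'.1, h2'.2]
    have hlin : |lin m α - lin m β| ≤ 2 * D * (2 : ℝ)⁻¹ ^ (U + p.1) := by
      have h1 := abs_lt.1 hα.2
      have h2 := abs_lt.1 hβ.2
      rw [abs_le]
      constructor <;> linarith [h1.1, h1.2, h2.1, h2.2]
    intro j
    rw [Real.dist_eq]
    by_cases hj : j = i0
    · rw [hj]
      have hm1 : (1 : ℝ) ≤ |(m i0 : ℝ)| := by
        have : 1 ≤ |m i0| := Int.one_le_abs hi0
        exact_mod_cast this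
      have e1 : (m i0 : ℝ) * (α i0 - β i0) = (lin m α - lin m β) -
          ∑ j ∈ univ.erase i0, (m j : ℝ) * (α j - β j) := by
        have e2 : lin m α - lin m β = ∑ j, (m j : ℝ) * (α j - β j) := by
          unfold lin
          rw [← sum_sub_distrib]
          exact sum_congr rfl fun j _ => by ring
        rw [e2, ← add_sum_erase univ (fun j => (m j : ℝ) * (α j - β j)) (mem_univ i0)]
        ring
      have e3 : |∑ j ∈ univ.erase i0, (m j : ℝ) * (α j - β j)| ≤ W * (2 : ℝ)⁻¹ ^ (U + p.1) := by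
        refine (abs_sum_le_sum_abs _ _).trans ?_
        rw [hW, sum_mul]
        refine (sum_le_sum (g := fun j => |(m j : ℝ)| * (2 : ℝ)⁻¹ ^ (U + p.1)) fun j hj' => ?_).trans
          (sum_le_sum_of_subset_of_nonneg (erase_subset _ _) fun _ _ _ => by positivity)
        rw [abs_mul]
        exact mul_le_mul_of_nonneg_left (hJ j (ne_of_mem_erase hj')) (abs_nonneg _)
      calc |α i0 - β i0| ≤ |(m i0 : ℝ)| * |α i0 - β i0| :=
            le_mul_of_one_le_left (abs_nonneg _) hm1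
        _ = |(m i0 : ℝ) * (α i0 - β i0)| := (abs_mul _ _).symm
        _ ≤ |lin m α - lin m β| + |∑ j ∈ univ.erase i0, (m j : ℝ) * (α j - β j)| := by
            rw [e1]; exact abs_sub _ _
        _ ≤ 2 * D * (2 : ℝ)⁻¹ ^ (U + p.1) + W * (2 : ℝ)⁻¹ ^ (U + p.1) := add_le_add hlin e3
        _ = _ := by ring
    · have h1 := hJ j hj
      have hm1 : (1 : ℝ) ≤ W := by
        have : 1 ≤ |m i0| := Int.one_le_abs hi0
        have h2 : (1 : ℝ) ≤ |(m i0 : ℝ)| := by exact_mod_cast this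
        refine h2.trans ?_
        exact single_le_sum (f := fun j => |(m j : ℝ)|) (fun _ _ => abs_nonneg _) (mem_univ i0)
      refine h1.trans ?_
      nlinarith
  -- the covering
  have hcov : ∀ U : ℕ, Z ⊆ ⋃ p, t U p := by
    intro U α hα
    obtain ⟨hα1, hα2⟩ := hα
    obtain ⟨j, hj, i, l, hil⟩ := (frequently_atTop.1 hα2) U
    have hε : (0 : ℝ) < (2 : ℝ)⁻¹ ^ j := by positivity
    have hε1 : (2 : ℝ)⁻¹ ^ j ≤ 1 := pow_le_one₀ (by norm_num) (by norm_num)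
    obtain ⟨u, rfl⟩ := Nat.exists_eq_add_of_le hj
    rw [Set.mem_iUnion]
    -- the cell
    have hcell : ∀ s : J, ∃ z : Fin (Lc (U + u)),
        |α s - (-(R : ℝ) + ((z : ℕ) : ℝ) * (2 : ℝ)⁻¹ ^ (U + u))| ≤ (2 : ℝ)⁻¹ ^ (U + u) / 2 * 2 ∧
        0 ≤ α s - (-(R : ℝ) + ((z : ℕ) : ℝ) * (2 : ℝ)⁻¹ ^ (U + u)) := by
      intro s
      have h1 := abs_le.1 (hα1 s)
      set y : ℝ := (α s + R) * 2 ^ (U + u) with hy
      have hy0 : 0 ≤ y := mul_nonneg (by linarith [h1.1]) (by positivity)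
      have hp : (0 : ℝ) < 2 ^ (U + u) := by positivity
      have h2 : (⌊y⌋₊ : ℝ) ≤ y := Nat.floor_le hy0
      have h3 : y < ⌊y⌋₊ + 1 := Nat.lt_floor_add_one y
      have hlt : ⌊y⌋₊ < Lc (U + u) := by
        have h4 : (⌊y⌋₊ : ℝ) < ((Lc (U + u) : ℕ) : ℝ) := by
          refine h2.trans_lt ?_
          change y < ((2 * (2 * R + 1) * 2 ^ (U + u) : ℕ) : ℝ)
          push_cast
          rw [hy]
          refine mul_lt_mul_of_pos_right ?_ hp
          have : (0 : ℝ) ≤ R := by positivity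
          linarith [h1.2]
        exact_mod_cast h4
      refine ⟨⟨⌊y⌋₊, hlt⟩, ?_⟩
      have hinv : (2 : ℝ)⁻¹ ^ (U + u) = (2 ^ (U + u))⁻¹ := by rw [inv_pow]
      have e1 : α s - (-(R : ℝ) + (⌊y⌋₊ : ℝ) * (2 : ℝ)⁻¹ ^ (U + u)) =
          (y - ⌊y⌋₊) * (2 : ℝ)⁻¹ ^ (U + u) := by
        rw [hy, hinv]
        field_simp
        ring
      have h5 : 0 ≤ (y - ⌊y⌋₊) * (2 : ℝ)⁻¹ ^ (U + u) := mul_nonneg (by linarith) hε.le
      constructor
      · rw [e1, abs_of_nonneg h5]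
        nlinarith
      · rw [e1]; exact h5
    choose z hz using hcell
    -- the integer
    have hint : ∃ q : Fin (2 * Λ + 1), l + ⌊a (U + u) i⌋ = ((q : ℕ) : ℤ) - Λ := by
      have h1 : |lin m α| ≤ W * R := by
        unfold lin
        refine (abs_sum_le_sum_abs _ _).trans ?_
        rw [hW, sum_mul]
        refine sum_le_sum fun j _ => ?_
        rw [abs_mul]
        exact mul_le_mul_of_nonneg_left (hα1 j) (abs_nonneg _)
      have h2 : |((l + ⌊a (U + u) i⌋ : ℤ) : ℝ)| ≤ Λ := by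
        have h3 : |((l + ⌊a (U + u) i⌋ : ℤ) : ℝ)| ≤ W * R + 1 + D := by
          have e1 : ((l + ⌊a (U + u) i⌋ : ℤ) : ℝ) = lin m α - Int.fract (a (U + u) i) -
              (lin m α - a (U + u) i - l) := by
            rw [Int.fract]
            push_cast
            ring
          rw [e1]
          have h4 : |Int.fract (a (U + u) i)| ≤ 1 := by
            rw [abs_of_nonneg (Int.fract_nonneg _)]
            exact (Int.fract_lt_one _).le
          have h5 : |lin m α - a (U + u) i - l| ≤ D := hil.le.trans (by nlinarith)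
          calc _ ≤ |lin m α - Int.fract (a (U + u) i)| + |lin m α - a (U + u) i - l| :=
                abs_sub _ _
            _ ≤ (|lin m α| + |Int.fract (a (U + u) i)|) + D := add_le_add (abs_sub _ _) h5
            _ ≤ _ := by linarith
        exact h3.trans (Nat.le_ceil _)
      have h6 : |l + ⌊a (U + u) i⌋| ≤ (Λ : ℤ) := by exact_mod_cast h2
      rw [abs_le] at h6
      refine ⟨⟨(l + ⌊a (U + u) i⌋ + Λ).toNat, by omega⟩, ?_⟩
      simp only
      rw [Int.toNat_of_nonneg (by linarith [h6.1])]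
      ring
    obtain ⟨q, hq⟩ := hint
    refine ⟨⟨u, z, i, q⟩, ?_, ?_⟩
    · intro s
      exact hz s
    · change |lin m α - Int.fract (a (U + u) i) - (((q : ℕ) : ℤ) - Λ : ℤ)| < _
      rw [← hq]
      have e1 : lin m α - Int.fract (a (U + u) i) - ((l + ⌊a (U + u) i⌋ : ℤ) : ℝ) =
          lin m α - a (U + u) i - l := by
        rw [Int.fract]
        push_cast
        ring
      rw [e1]
      exact hil
  -- the sums
  set B : ℝ≥0∞ := ((2 * (2 * R + 1)) ^ (r - 1) * (C * (2 * Λ + 1)) : ℕ) *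
    (2 : ℝ≥0∞) ^ (A * (r - 1)) with hB
  have hBtop : B ≠ ∞ := ENNReal.mul_ne_top (ENNReal.natCast_ne_top _)
    (ENNReal.pow_ne_top ENNReal.ofNat_ne_top)
  have hcardJ : Fintype.card J = r - 1 := by
    rw [Fintype.card_subtype_compl, Fintype.card_fin, Fintype.card_subtype_eq]
  set g : ℕ → ℝ≥0∞ := fun j => (2 : ℝ≥0∞) ^ (j * (r - 1)) * h ((2 : ℝ≥0∞)⁻¹ ^ j) with hg
  have hsum : ∀ U : ℕ, ∑' p : ι (U + A), h (Metric.ediam (t (U + A) p)) ≤
      B * ∑' u, g (u + U) := by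
    intro U
    rw [ENNReal.tsum_sigma', ← ENNReal.tsum_mul_left]
    refine ENNReal.tsum_le_tsum fun u => ?_
    have h1 : ∀ p : (J → Fin (Lc (U + A + u))) × Fin C × Fin (2 * Λ + 1),
        h (Metric.ediam (t (U + A) ⟨u, p⟩)) ≤ h ((2 : ℝ≥0∞)⁻¹ ^ (U + u)) := by
      intro p
      refine hh.mono ((hdiam (U + A) ⟨u, p⟩).trans ?_)
      have e1 : (2 : ℝ≥0∞)⁻¹ ^ (U + u) = ENNReal.ofReal ((2 : ℝ)⁻¹ ^ (U + u)) := by
        rw [ENNReal.ofReal_pow (by norm_num), ENNReal.ofReal_inv_of_pos (by norm_num)]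
        norm_num
      rw [e1]
      refine ENNReal.ofReal_le_ofReal ?_
      change (2 * D + W) * (2 : ℝ)⁻¹ ^ (U + A + u) ≤ _
      have e2 : (2 : ℝ)⁻¹ ^ (U + A + u) = (2 : ℝ)⁻¹ ^ (U + u) * ((2 : ℝ) ^ A)⁻¹ := by
        rw [← inv_pow, ← pow_add]
        congr 1
        omega
      rw [e2]
      have hpos : (0 : ℝ) < 2 ^ A := by positivity
      have h3 : (2 * D + W) * ((2 : ℝ) ^ A)⁻¹ ≤ 1 := by
        rw [← div_eq_mul_inv, div_le_one hpos]
        linarith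
      calc (2 * D + W) * ((2 : ℝ)⁻¹ ^ (U + u) * ((2 : ℝ) ^ A)⁻¹) =
            ((2 * D + W) * ((2 : ℝ) ^ A)⁻¹) * (2 : ℝ)⁻¹ ^ (U + u) := by ring
        _ ≤ 1 * (2 : ℝ)⁻¹ ^ (U + u) := mul_le_mul_of_nonneg_right h3 (by positivity)
        _ = _ := one_mul _
    refine (ENNReal.tsum_le_tsum h1).trans ?_
    rw [tsum_fintype, Finset.sum_const, Finset.card_univ, nsmul_eq_mul]
    have h4 : Fintype.card ((J → Fin (Lc (U + A + u))) × Fin C × Fin (2 * Λ + 1)) =
        ((2 * (2 * R + 1)) ^ (r - 1) * (C * (2 * Λ + 1))) * 2 ^ ((U + A + u) * (r - 1)) := by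
      rw [Fintype.card_prod, Fintype.card_prod, Fintype.card_fun, Fintype.card_fin,
        Fintype.card_fin, Fintype.card_fin, hcardJ]
      change (2 * (2 * R + 1) * 2 ^ (U + A + u)) ^ (r - 1) * _ = _
      rw [mul_pow, ← pow_mul]
      ring
    rw [h4, hg, hB]
    push_cast
    have e5 : (2 : ℝ≥0∞) ^ ((U + A + u) * (r - 1)) =
        (2 : ℝ≥0∞) ^ (A * (r - 1)) * (2 : ℝ≥0∞) ^ ((u + U) * (r - 1)) := by
      rw [← pow_add]
      congr 1
      ring
    rw [e5, add_comm U u]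
    apply le_of_eq
    ring
  have hlim : Tendsto (fun U => B * ∑' u, g (u + U)) atTop (𝓝 0) := by
    have h1 := ENNReal.tendsto_sum_nat_add g hh.summable
    have h2 := ENNReal.Tendsto.const_mul h1 (Or.inr hBtop)
    rwa [mul_zero] at h2
  have hle := Measure.mkMetric_le_liminf_tsum Z (l := atTop)
    (fun U : ℕ => ENNReal.ofReal ((2 * D + W) * (2 : ℝ)⁻¹ ^ U)) (by
      have h1 : Tendsto (fun U : ℕ => (2 * D + W) * (2 : ℝ)⁻¹ ^ U) atTop (𝓝 0) := by
        have := (tendsto_pow_atTop_nhds_zero_of_lt_one (r := (2 : ℝ)⁻¹) (by norm_num)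
          (by norm_num)).const_mul (2 * D + W)
        rwa [mul_zero] at this
      have h2 := ENNReal.tendsto_ofReal h1
      rwa [ENNReal.ofReal_zero] at h2) t
    (Eventually.of_forall fun U p => (hdiam U p).trans (ENNReal.ofReal_le_ofReal
      (mul_le_mul_of_nonneg_left (pow_le_pow_of_le_one (by norm_num) (by norm_num)
        (Nat.le_add_right _ _)) (by positivity)))) (Eventually.of_forall hcov) h
  refine le_antisymm (hle.trans ?_) bot_le
  have h3 : liminf (fun U => ∑' p : ι U, h (Metric.ediam (t U p))) atTop ≤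
      liminf (fun U => ∑' p : ι (U + A), h (Metric.ediam (t (U + A) p))) atTop :=
    le_of_eq (Filter.liminf_nat_add (fun U => ∑' p : ι U, h (Metric.ediam (t U p))) A).symm
  refine h3.trans ?_
  refine (Filter.liminf_le_liminf (Eventually.of_forall hsum)).trans ?_
  rw [hlim.liminf_eq]

end Pool.Agent.H419.BS
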