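import Pool.Agent.H419.BS.LS
import Pool.Agent.H419.BS.Null

/-! Exponential sums over the primes of a number field with arbitrary bounded coefficients. -/

set_option autoImplicit false

namespace Pool.Agent.H419.BS

open NumberField IsDedekindDomain Filter Topology Finset MeasureTheory
open Pool.Agent.W540.BE (upto nm mem_upto nf fiber_finite fiber_card norm_nf_le sum_nf two_le_nm)
open Pool.Agent.Helper644_ST (card_composite card_ratio card_pos_ev)
open scoped ENNReal

variable {K : Type} [Field K] [NumberField K]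

/-- the exponential sum -/
noncomputable def S (g : HeightOneSpectrum (𝓞 K) → ℂ) (N : ℕ) (β : ℝ) : ℂ :=
  ∑ v ∈ upto K N, g v * E (nm K v) β

/-- the number of primes -/
noncomputable def U (K : Type) [Field K] [NumberField K] (N : ℕ) : ℝ := ((upto K N).card : ℝ)

theorem sum_pr (g : HeightOneSpectrum (𝓞 K) → ℂ) (N : ℕ) (β : ℝ) :
    ∑ n ∈ pr N, nf g n * E n β =
      ∑ v ∈ (upto K N).filter (fun v => (nm K v).Prime), g v * E (nm K v) β := by
  classical
  rw [← Finset.sum_fiberwise_of_maps_to (t := pr N) (g := nm K)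
    (s := (upto K N).filter (fun v => (nm K v).Prime))]
  · refine Finset.sum_congr rfl fun n hn => ?_
    rw [nf, Finset.sum_mul]
    refine Finset.sum_congr ?_ fun v hv => ?_
    · ext v
      rw [Set.Finite.mem_toFinset, Set.mem_ofPred_eq, Finset.mem_filter, Finset.mem_filter,
        mem_upto]
      rw [pr, Finset.mem_filter, Finset.mem_Ioc] at hn
      constructor
      · intro h
        exact ⟨⟨h ▸ hn.1.2, h ▸ hn.2⟩, h⟩
      · exact fun h => h.2
    · rw [Finset.mem_filter] at hv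
      rw [hv.2]
  · intro v hv
    rw [Finset.mem_filter, mem_upto] at hv
    rw [pr, Finset.mem_filter, Finset.mem_Ioc]
    exact ⟨⟨hv.2.pos, hv.1⟩, hv.2⟩

theorem split {g : HeightOneSpectrum (𝓞 K) → ℂ} (hg : ∀ v, ‖g v‖ ≤ 1) (N : ℕ) (β : ℝ) :
    ‖S g N β - ∑ n ∈ pr N, nf g n * E n β‖ ≤ Module.finrank ℚ K * (Nat.sqrt N + 1) := by
  classical
  have e : S g N β = ∑ v ∈ (upto K N).filter (fun v => (nm K v).Prime), g v * E (nm K v) β +
      ∑ v ∈ (upto K N).filter (fun v => ¬ (nm K v).Prime), g v * E (nm K v) β :=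
    (Finset.sum_filter_add_sum_filter_not _ _ _).symm
  rw [e, sum_pr, add_sub_cancel_left]
  refine (norm_sum_le _ _).trans ?_
  refine (Finset.sum_le_card_nsmul _ _ 1 fun v _ => ?_).trans ?_
  · rw [norm_mul, norm_E, mul_one]
    exact hg v
  · rw [nsmul_eq_mul, mul_one]
    have h := card_composite (F := K) N
    have h2 : (((upto K N).filter (fun v => ¬ (nm K v).Prime)).card : ℝ) ≤
        ((Module.finrank ℚ K * (Nat.sqrt N + 1) : ℕ) : ℝ) := by
      exact_mod_cast h
    push_cast at h2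
    exact h2

theorem sqrt_small : Tendsto (fun N : ℕ => (Module.finrank ℚ K * (Nat.sqrt N + 1) : ℝ) /
    (Nat.primeCounting N : ℝ)) atTop (𝓝 0) := by
  have h := Pool.Agent.Helper644_ST.negligible
    (X := fun N : ℕ => (Module.finrank ℚ K * (Nat.sqrt N + 1) : ℝ)) (Module.finrank ℚ K)
    (fun N => by rw [abs_of_nonneg (by positivity)])
  exact h

theorem coverK {g : HeightOneSpectrum (𝓞 K) → ℂ} (hg : ∀ v, ‖g v‖ ≤ 1) {η : ℝ} (hη : 0 < η) :
    ∃ (C N₀ : ℕ), ∀ N : ℕ, N₀ ≤ N → ∃ α : Fin C → ℝ, ∀ β : ℝ,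
    η * U K N ≤ ‖S g N β‖ → ∃ (i : Fin C) (l : ℤ), |β - α i - l| < 1 / (N : ℝ) := by
  have hd : (0 : ℝ) < Module.finrank ℚ K := by exact_mod_cast Module.finrank_pos
  obtain ⟨C, N₁, h⟩ := cover (Module.finrank ℚ K) (η / 4) hd (by positivity)
  obtain ⟨N₂, hN₂⟩ := eventually_atTop.1 ((card_ratio (F := K)).eventually_const_lt
    (show (1 / 2 : ℝ) < 1 by norm_num))
  obtain ⟨N₃, hN₃⟩ := eventually_atTop.1 ((sqrt_small (K := K)).eventually_lt_const
    (show (0 : ℝ) < η / 4 by positivity))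
  refine ⟨C, max N₁ (max N₂ N₃), fun N hN => ?_⟩
  have hN1 : N₁ ≤ N := (le_max_left _ _).trans hN
  have hN2 := hN₂ N (((le_max_left _ _).trans (le_max_right _ _)).trans hN)
  have hN3 := hN₃ N (((le_max_right _ _).trans (le_max_right _ _)).trans hN)
  have hpi : 0 < (Nat.primeCounting N : ℝ) := by
    by_contra hcon
    have h2 : (Nat.primeCounting N : ℝ) = 0 := le_antisymm (not_lt.1 hcon) (by positivity)
    rw [h2, div_zero] at hN2
    norm_num at hN2
  rw [lt_div_iff₀ hpi] at hN2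
  rw [div_lt_iff₀ hpi] at hN3
  obtain ⟨α, hα⟩ := h N hN1 (nf g) (fun n => by simpa using norm_nf_le hg n)
  refine ⟨α, fun β hβ => hα β ?_⟩
  have h1 := split hg N β
  have h2 : ‖S g N β‖ ≤ ‖∑ n ∈ pr N, nf g n * E n β‖ + Module.finrank ℚ K * (Nat.sqrt N + 1) := by
    calc ‖S g N β‖ = ‖∑ n ∈ pr N, nf g n * E n β + (S g N β - ∑ n ∈ pr N, nf g n * E n β)‖ := by
          congr 1; ring
      _ ≤ _ := (norm_add_le _ _).trans (by gcongr)
  have h3 : η * (1 / 2 * Nat.primeCounting N) ≤ η * U K N :=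
    mul_le_mul_of_nonneg_left hN2.le hη.le
  linarith

theorem U_mono {M N : ℕ} (h : M ≤ N) : U K M ≤ U K N := by
  unfold U
  have : (upto K M).card ≤ (upto K N).card :=
    Finset.card_le_card fun v hv => mem_upto.2 ((mem_upto.1 hv).trans h)
  exact_mod_cast this

theorem S_sub {g : HeightOneSpectrum (𝓞 K) → ℂ} (hg : ∀ v, ‖g v‖ ≤ 1) {M N : ℕ} (h : M ≤ N)
    (β : ℝ) : ‖S g N β - S g M β‖ ≤ U K N - U K M := by
  classical
  have hsub : upto K M ⊆ upto K N := fun v hv => mem_upto.2 ((mem_upto.1 hv).trans h)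
  have e : S g N β - S g M β = ∑ v ∈ upto K N \ upto K M, g v * E (nm K v) β := by
    rw [S, S, sub_eq_iff_eq_add]
    exact (Finset.sum_sdiff hsub).symm
  rw [e]
  refine (norm_sum_le _ _).trans ?_
  refine (Finset.sum_le_card_nsmul _ _ 1 fun v _ => ?_).trans ?_
  · rw [norm_mul, norm_E, mul_one]
    exact hg v
  · rw [nsmul_eq_mul, mul_one, Finset.card_sdiff_of_subset hsub, Nat.cast_sub
      (Finset.card_le_card hsub)]
    exact le_rfl

theorem U_atTop : Tendsto (U K) atTop atTop := by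
  have h1 := card_ratio (F := K)
  have h2 : Tendsto (fun N : ℕ => (Nat.primeCounting N : ℝ)) atTop atTop :=
    tendsto_natCast_atTop_atTop.comp Nat.tendsto_primeCounting
  have h3 := h1.pos_mul_atTop one_pos h2
  refine h3.congr' ?_
  filter_upwards [h2.eventually_gt_atTop 0] with N hN
  exact div_mul_cancel₀ _ hN.ne'

theorem U_le (N : ℕ) : U K N ≤ Module.finrank ℚ K * N := by
  classical
  have h1 : (upto K N).card = ∑ n ∈ Icc 1 N, ((fiber_finite (F := K) n).toFinset).card := by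
    have h := sum_nf (F := K) (fun _ => (1 : ℂ)) N
    rw [Finset.sum_const, nsmul_eq_mul, mul_one] at h
    have h2 : ∀ n, nf (F := K) (fun _ => (1 : ℂ)) n = ((fiber_finite (F := K) n).toFinset).card := by
      intro n
      rw [nf, Finset.sum_const, nsmul_eq_mul, mul_one]
    simp only [h2] at h
    exact_mod_cast h.symm
  have h2 : (upto K N).card ≤ Module.finrank ℚ K * N := by
    rw [h1]
    calc ∑ n ∈ Icc 1 N, ((fiber_finite (F := K) n).toFinset).card ≤
        ∑ _n ∈ Icc 1 N, Module.finrank ℚ K := by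
          refine Finset.sum_le_sum fun n _ => ?_
          have h3 := fiber_card (F := K) n
          rwa [Set.ncard_eq_toFinset_card _ (fiber_finite n)] at h3
      _ = Module.finrank ℚ K * N := by
          rw [Finset.sum_const, Nat.card_Icc, smul_eq_mul, add_tsub_cancel_right, mul_comm]
  unfold U
  exact_mod_cast h2

/-- **The exceptional set has measure zero for all gauge functions.** -/
theorem bad_null {r : ℕ} (m : Fin r → ℤ) (hm : m ≠ 0) {h : ℝ≥0∞ → ℝ≥0∞} (hh : IsGauge r h)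
    {g : HeightOneSpectrum (𝓞 K) → ℂ} (hg : ∀ v, ‖g v‖ ≤ 1) {η : ℝ} (hη : 0 < η) :
    Measure.mkMetric h {α : Fin r → ℝ | ∃ᶠ N : ℕ in atTop,
      η * U K N ≤ ‖S g N (lin m α)‖} = 0 := by
  classical
  have hd : (0 : ℝ) < Module.finrank ℚ K := by exact_mod_cast Module.finrank_pos
  -- the ratio
  obtain ⟨s, hs0, hs⟩ : ∃ s : ℕ, s ≠ 0 ∧ (2 : ℝ) ^ (1 / (s : ℝ)) - 1 < η / 2 := by
    have h1 : Tendsto (fun s : ℕ => (2 : ℝ) ^ (1 / (s : ℝ)) - 1) atTop (𝓝 ((2 : ℝ) ^ (0 : ℝ) - 1)) :=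
      ((tendsto_const_nhds (x := (2 : ℝ))).rpow tendsto_one_div_atTop_nhds_zero_nat
        (Or.inl (by norm_num))).sub_const 1
    rw [Real.rpow_zero, sub_self] at h1
    obtain ⟨s, hs⟩ := ((h1.eventually_lt_const (show (0 : ℝ) < η / 2 by positivity)).and
      (eventually_gt_atTop 0)).exists
    exact ⟨s, hs.2.ne', hs.1⟩
  set ρ : ℝ := (2 : ℝ) ^ (1 / (s : ℝ)) with hρ
  have hρs : ρ ^ s = 2 := by
    rw [hρ, ← Real.rpow_natCast, ← Real.rpow_mul (by norm_num), one_div,
      inv_mul_cancel₀ (by exact_mod_cast hs0), Real.rpow_one]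
  have hρ1 : 1 < ρ := Real.one_lt_rpow (by norm_num) (by positivity)
  have hρ0 : 0 < ρ := by positivity
  -- the grid
  have hex : ∀ t : ℕ, ∃ N, ρ ^ t ≤ U K N := fun t => ((U_atTop (K := K)).eventually_ge_atTop (ρ ^ t)).exists
  let M : ℕ → ℕ := fun t => Nat.find (hex t)
  have hM : ∀ t, ρ ^ t ≤ U K (M t) := fun t => Nat.find_spec (hex t)
  have hMle : ∀ t N, ρ ^ t ≤ U K N → M t ≤ N := fun t N hN => Nat.find_min' (hex t) hN
  have hMd : ∀ t, ρ ^ t ≤ Module.finrank ℚ K * M t := fun t => (hM t).trans (U_le _)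
  obtain ⟨C, N₀, hC⟩ := coverK hg (show (0 : ℝ) < η / 2 by positivity)
  choose! a ha using hC
  -- the dyadic centres
  let b : ℕ → Fin (s * C) → ℝ := fun j p =>
    a (M (s * j + (finProdFinEquiv.symm p).1)) (finProdFinEquiv.symm p).2
  have hcov : {α : Fin r → ℝ | ∃ᶠ N : ℕ in atTop, η * U K N ≤ ‖S g N (lin m α)‖} ⊆
      ⋃ R : ℕ, {α : Fin r → ℝ | (∀ j, |α j| ≤ R) ∧
      ∃ᶠ j : ℕ in atTop, ∃ (i : Fin (s * C)) (l : ℤ),
        |lin m α - b j i - l| < Module.finrank ℚ K * (2 : ℝ)⁻¹ ^ j} := by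
    intro α hα
    rw [Set.mem_iUnion]
    obtain ⟨R, hR⟩ : ∃ R : ℕ, ∀ j, |α j| ≤ R := by
      refine ⟨⌈∑ j, |α j|⌉₊, fun j => ?_⟩
      exact (single_le_sum (f := fun j => |α j|) (fun _ _ => abs_nonneg _) (mem_univ j)).trans
        (Nat.le_ceil _)
    refine ⟨R, hR, ?_⟩
    rw [frequently_atTop]
    intro J
    -- a large value of N
    obtain ⟨T, hT⟩ : ∃ T : ℕ, ∀ t, T ≤ t → N₀ ≤ M t := by
      have h1 : Tendsto (fun t : ℕ => ρ ^ t) atTop atTop := tendsto_pow_atTop_atTop_of_one_lt hρ1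
      obtain ⟨T, hT⟩ := eventually_atTop.1
        (h1.eventually_ge_atTop (Module.finrank ℚ K * (N₀ : ℝ)))
      refine ⟨T, fun t ht => ?_⟩
      have h2 := (hT t ht).trans (hMd t)
      have h3 := le_of_mul_le_mul_left h2 hd
      exact_mod_cast h3
    obtain ⟨N, hN1, hN2⟩ := (hα.and_eventually
      ((U_atTop (K := K)).eventually_ge_atTop (ρ ^ (max T (s * J))))).exists
    have hU1 : 1 ≤ U K N := (one_le_pow₀ hρ1.le).trans hN2
    obtain ⟨t, ht1, ht2⟩ := exists_nat_pow_near hU1 hρ1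
    have htT : max T (s * J) ≤ t := by
      have h1 : ρ ^ (max T (s * J)) < ρ ^ (t + 1) := hN2.trans_lt ht2
      have h2 := (pow_lt_pow_iff_right₀ hρ1).1 h1
      omega
    have hMt := hMle t N ht1
    have h3 : U K N - U K (M t) ≤ (ρ - 1) * U K (M t) := by
      have h4 : U K N ≤ ρ * U K (M t) := by
        calc U K N ≤ ρ ^ (t + 1) := ht2.le
          _ = ρ * ρ ^ t := by ring
          _ ≤ ρ * U K (M t) := mul_le_mul_of_nonneg_left (hM t) hρ0.le
      linarith
    have hUM : 0 < U K (M t) := (pow_pos hρ0 t).trans_le (hM t)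
    have h5 : η / 2 * U K (M t) ≤ ‖S g (M t) (lin m α)‖ := by
      have h6 := S_sub hg hMt (lin m α)
      have h7 : ‖S g N (lin m α)‖ ≤ ‖S g (M t) (lin m α)‖ +
          ‖S g N (lin m α) - S g (M t) (lin m α)‖ := by
        calc ‖S g N (lin m α)‖ = ‖S g (M t) (lin m α) +
              (S g N (lin m α) - S g (M t) (lin m α))‖ := by congr 1; ring
          _ ≤ _ := norm_add_le _ _
      have h8 : η * U K (M t) ≤ η * U K N := mul_le_mul_of_nonneg_left (U_mono hMt) hη.le
      have h9 : (ρ - 1) * U K (M t) ≤ η / 2 * U K (M t) :=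
        mul_le_mul_of_nonneg_right hs.le hUM.le
      linarith
    obtain ⟨i, l, hil⟩ := ha (M t) (hT t ((le_max_left _ _).trans htT)) (lin m α) h5
    have hts : t = s * (t / s) + t % s := (Nat.div_add_mod t s).symm
    have hw : t % s < s := Nat.mod_lt _ (Nat.pos_of_ne_zero hs0)
    refine ⟨t / s, ?_, finProdFinEquiv (⟨t % s, hw⟩, i), l, ?_⟩
    · have h10 : s * J ≤ t := (le_max_right _ _).trans htT
      exact (Nat.le_div_iff_mul_le (Nat.pos_of_ne_zero hs0)).2 (by rwa [mul_comm])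
    · have hb : b (t / s) (finProdFinEquiv (⟨t % s, hw⟩, i)) = a (M t) i := by
        simp only [b, Equiv.symm_apply_apply]
        rw [← hts]
      rw [hb]
      refine hil.trans_le ?_
      have hMpos : (0 : ℝ) < M t := by
        by_contra hcon
        have h11 : (M t : ℝ) = 0 := le_antisymm (not_lt.1 hcon) (by positivity)
        have h12 := hMd t
        rw [h11, mul_zero] at h12
        exact absurd h12 (not_le.2 (pow_pos hρ0 t))
      have h13 : (2 : ℝ) ^ (t / s) ≤ Module.finrank ℚ K * M t := by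
        calc (2 : ℝ) ^ (t / s) = ρ ^ (s * (t / s)) := by rw [pow_mul, hρs]
          _ ≤ ρ ^ t := pow_le_pow_right₀ hρ1.le (Nat.mul_div_le t s)
          _ ≤ _ := hMd t
      rw [inv_pow, ← div_eq_mul_inv, div_le_div_iff₀ hMpos (by positivity), one_mul]
      exact h13
  refine measure_mono_null hcov ?_
  exact measure_iUnion_null fun R => null_limsup m hm hh R (s * C) (Module.finrank ℚ K) hd b

end Pool.Agent.H419.BS
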