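import Pool.Graph.R_pool_sql_team_seeded_620a6dc7.Helper644_ST.BesLaw
import Pool.Graph.R_pool_sql_team_seeded_35f281b4.K7.H64.LS.Lin
import Pool.Graph.R_seed8.Helper923.PNT

/-! Few well-spaced frequencies: the large sieve for coefficients supported on the primes. -/

set_option autoImplicit false

namespace Pool.Agent.H419.BS

open Filter Topology Finset

/-- the exponential `e(n β)` -/
noncomputable def E (n : ℕ) (β : ℝ) : ℂ := Complex.exp (2 * Real.pi * Complex.I * n * β)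

theorem norm_E (n : ℕ) (β : ℝ) : ‖E n β‖ = 1 := by
  unfold E
  rw [Complex.norm_exp]
  simp

/-- the primes up to `N` -/
def pr (N : ℕ) : Finset ℕ := (Ioc 0 N).filter Nat.Prime

theorem card_pr (N : ℕ) : (pr N).card = Nat.primeCounting N := by
  rw [Nat.primeCounting, Nat.primeCounting', Nat.count_eq_card_filter_range, pr]
  congr 1
  ext n
  simp only [mem_filter, mem_Ioc, mem_range]
  constructor
  · rintro ⟨⟨h1, h2⟩, h3⟩
    exact ⟨by omega, h3⟩
  · rintro ⟨h1, h2⟩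
    exact ⟨⟨h2.pos, by omega⟩, h2⟩

theorem sysX : Pool.Agent.W123.RU.Poly.Sys (fun _ : Unit => (Polynomial.X : Polynomial ℤ)) := by
  refine Pool.Agent.K7.H64.LS.sysOne _ Polynomial.irreducible_X (by simp) (by simp) ?_
  intro p hp
  refine ⟨1, ?_⟩
  simp only [Nat.cast_one, Polynomial.eval_X]
  intro h
  exact hp.one_lt.ne' (by exact_mod_cast Int.eq_one_of_dvd_one (by positivity) h)

/-- the large sieve for few points and coefficients supported on the primes -/
theorem ls_primes : ∃ C : ℝ, 0 < C ∧ ∀ N : ℕ, 2 ≤ N → ∀ (m : ℕ) (α : Fin m → ℝ),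
    (∀ i j, i ≠ j → ∀ l : ℤ, 1 / (N : ℝ) ≤ |α i - α j - l|) → ∀ a : ℕ → ℂ,
    ∑ i, ‖∑ n ∈ pr N, a n * E n (α i)‖ ^ 2 ≤
      C * N * (Real.log (2 * m) / Real.log N) * ∑ n ∈ pr N, ‖a n‖ ^ 2 := by
  obtain ⟨C, hC, h⟩ := Pool.Agent.K7.H64.LS.lsf_real _ sysX one_pos
  refine ⟨2 * C, by positivity, fun N hN m α hα a => ?_⟩
  have hN0 : (0 : ℝ) < N := by exact_mod_cast (by omega : 0 < N)
  have h1 := h N hN 0 (pr N) (by
    rw [zero_add]
    exact filter_subset _ _) (fun n hn => Or.inr fun _ => by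
      rw [Polynomial.eval_X, Int.natAbs_natCast]
      exact (mem_filter.1 hn).2) m α (1 / N) (by positivity) hα a
  rw [Fintype.card_unit, pow_one, one_div_one_div] at h1
  refine h1.trans (le_of_eq ?_)
  ring

/-- the prime number theorem in the form in which it is used -/
theorem pnt : Tendsto (fun N : ℕ => (Nat.primeCounting N : ℝ) * Real.log N / N) atTop (𝓝 1) := by
  have h := Pool.Agent.Helper923.PNT.pi_tendsto.comp tendsto_natCast_atTop_atTop
  refine h.congr fun N => ?_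
  simp

/-- **Few large values.** -/
theorem few (d η : ℝ) (hd : 0 < d) (hη : 0 < η) : ∃ (C N₀ : ℕ), ∀ N : ℕ, N₀ ≤ N →
    ∀ a : ℕ → ℂ, (∀ n, ‖a n‖ ≤ d) → ∀ (m : ℕ) (α : Fin m → ℝ),
    (∀ i j, i ≠ j → ∀ l : ℤ, 1 / (N : ℝ) ≤ |α i - α j - l|) →
    (∀ i, η * Nat.primeCounting N ≤ ‖∑ n ∈ pr N, a n * E n (α i)‖) → m ≤ C := by
  obtain ⟨C0, hC0, hls⟩ := ls_primes
  obtain ⟨N1, hN1⟩ := eventually_atTop.1 (pnt.eventually_const_lt (show (1 / 2 : ℝ) < 1 by norm_num))
  set A : ℝ := 2 * C0 * d ^ 2 / η ^ 2 with hA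
  have hApos : 0 < A := by positivity
  refine ⟨⌈8 * A ^ 2⌉₊, max N1 3, fun N hN a ha m α hα hlarge => ?_⟩
  have hN3 : 3 ≤ N := (le_max_right _ _).trans hN
  have h1 := hN1 N ((le_max_left _ _).trans hN)
  have hNR : (3 : ℝ) ≤ N := by exact_mod_cast hN3
  have hlog : 0 < Real.log N := Real.log_pos (by linarith)
  have hpi : 0 < (Nat.primeCounting N : ℝ) := by
    by_contra h
    have h2 : (Nat.primeCounting N : ℝ) = 0 := le_antisymm (not_lt.1 h) (by positivity)
    rw [h2] at h1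
    norm_num at h1
  have h2 := hls N (by omega) m α hα a
  have h3 : (m : ℝ) * (η * Nat.primeCounting N) ^ 2 ≤
      ∑ i, ‖∑ n ∈ pr N, a n * E n (α i)‖ ^ 2 := by
    have h4 : ∑ _i : Fin m, (η * (Nat.primeCounting N : ℝ)) ^ 2 ≤
        ∑ i, ‖∑ n ∈ pr N, a n * E n (α i)‖ ^ 2 := by
      refine sum_le_sum fun i _ => ?_
      have := hlarge i
      gcongr
    simpa using h4
  have h5 : ∑ n ∈ pr N, ‖a n‖ ^ 2 ≤ Nat.primeCounting N * d ^ 2 := by
    calc ∑ n ∈ pr N, ‖a n‖ ^ 2 ≤ ∑ _n ∈ pr N, d ^ 2 :=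
          sum_le_sum fun n _ => by have := ha n; gcongr
      _ = Nat.primeCounting N * d ^ 2 := by rw [sum_const, nsmul_eq_mul, card_pr]
  rcases Nat.eq_zero_or_pos m with hm | hm
  · rw [hm]; exact Nat.zero_le _
  have hm1 : (1 : ℝ) ≤ m := by exact_mod_cast hm
  have hlogm : 0 ≤ Real.log (2 * m) := Real.log_nonneg (by linarith)
  have h6 : (m : ℝ) * (η * Nat.primeCounting N) ^ 2 ≤
      C0 * N * (Real.log (2 * m) / Real.log N) * (Nat.primeCounting N * d ^ 2) :=
    h3.trans (h2.trans (mul_le_mul_of_nonneg_left h5 (by positivity)))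
  -- m η² π(N) log N ≤ C0 N log(2m) d²
  have h7 : (m : ℝ) * η ^ 2 * (Nat.primeCounting N * Real.log N / N) ≤
      C0 * d ^ 2 * Real.log (2 * m) := by
    have e1 : (m : ℝ) * η ^ 2 * (Nat.primeCounting N * Real.log N / N) =
        (m : ℝ) * (η * Nat.primeCounting N) ^ 2 * (Real.log N / (N * Nat.primeCounting N)) := by
      field_simp
    have e2 : C0 * d ^ 2 * Real.log (2 * m) =
        C0 * N * (Real.log (2 * m) / Real.log N) * (Nat.primeCounting N * d ^ 2) *
          (Real.log N / (N * Nat.primeCounting N)) := by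
      field_simp
    rw [e1, e2]
    exact mul_le_mul_of_nonneg_right h6 (by positivity)
  have h8 : (m : ℝ) * η ^ 2 * (1 / 2) ≤ C0 * d ^ 2 * Real.log (2 * m) :=
    (mul_le_mul_of_nonneg_left h1.le (by positivity)).trans h7
  have h9 : (m : ℝ) ≤ A * Real.log (2 * m) := by
    rw [hA]
    rw [div_mul_eq_mul_div, le_div_iff₀ (by positivity)]
    linarith
  -- log(2m) ≤ 2 √(2m)
  have h10 : Real.log (2 * m) ≤ 2 * Real.sqrt (2 * m) := by
    have e3 : Real.log (2 * m) = 2 * Real.log (Real.sqrt (2 * m)) := by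
      rw [Real.log_sqrt (by positivity)]; ring
    rw [e3]
    have := Real.log_le_sub_one_of_pos (show 0 < Real.sqrt (2 * m) by positivity)
    linarith
  have h11 : (m : ℝ) ≤ A * (2 * Real.sqrt (2 * m)) :=
    h9.trans (mul_le_mul_of_nonneg_left h10 hApos.le)
  have hsq : Real.sqrt (2 * m) ^ 2 = 2 * m := Real.sq_sqrt (by positivity)
  have h12 : (m : ℝ) ≤ 8 * A ^ 2 := by
    have hs0 : 0 < Real.sqrt (2 * m) := Real.sqrt_pos.2 (by positivity)
    have h13 : Real.sqrt (2 * m) ≤ 4 * A := by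
      by_contra hcon
      push Not at hcon
      nlinarith
    nlinarith
  exact_mod_cast h12.trans (Nat.le_ceil _)

/-- **Covering of the large values.** -/
theorem cover (d η : ℝ) (hd : 0 < d) (hη : 0 < η) : ∃ (C N₀ : ℕ), ∀ N : ℕ, N₀ ≤ N →
    ∀ a : ℕ → ℂ, (∀ n, ‖a n‖ ≤ d) → ∃ α : Fin C → ℝ, ∀ β : ℝ,
    η * Nat.primeCounting N ≤ ‖∑ n ∈ pr N, a n * E n β‖ →
      ∃ (i : Fin C) (l : ℤ), |β - α i - l| < 1 / (N : ℝ) := by
  classical
  obtain ⟨C, N₀, h⟩ := few d η hd hη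
  refine ⟨C, N₀, fun N hN a ha => ?_⟩
  let P : ℕ → Prop := fun m => ∃ α : Fin m → ℝ,
    (∀ i j, i ≠ j → ∀ l : ℤ, 1 / (N : ℝ) ≤ |α i - α j - l|) ∧
    ∀ i, η * Nat.primeCounting N ≤ ‖∑ n ∈ pr N, a n * E n (α i)‖
  have hP0 : P 0 := ⟨fun i => i.elim0, fun i => i.elim0, fun i => i.elim0⟩
  have hPC : ∀ m, P m → m ≤ C := fun m ⟨α, h1, h2⟩ => h N hN a ha m α h1 h2
  set m := Nat.findGreatest P C with hm
  have hPm : P m := Nat.findGreatest_spec (Nat.zero_le C) hP0
  obtain ⟨α, h1, h2⟩ := hPm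
  have hmC : m ≤ C := hPC m ⟨α, h1, h2⟩
  refine ⟨fun i => if hi : (i : ℕ) < m then α ⟨i, hi⟩ else 0, fun β hβ => ?_⟩
  by_contra hcon
  push Not at hcon
  have hsep : ∀ (i : Fin m) (l : ℤ), 1 / (N : ℝ) ≤ |β - α i - l| := by
    intro i l
    have h3 := hcon ⟨i, i.2.trans_le hmC⟩ l
    simpa [i.2] using h3
  have hP1 : P (m + 1) := by
    refine ⟨Fin.cons β α, ?_, ?_⟩
    · intro i j hij l
      refine Fin.cases ?_ (fun i' => ?_) i (motive := fun i => i ≠ j → 1 / (N : ℝ) ≤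
        |(Fin.cons β α : Fin (m + 1) → ℝ) i - (Fin.cons β α : Fin (m + 1) → ℝ) j - l|) hij
      · refine Fin.cases (fun h => absurd rfl h) (fun j' _ => ?_) j
        simpa using hsep j' l
      · refine Fin.cases (fun _ => ?_) (fun j' h => ?_) j
        · simp only [Fin.cons_succ, Fin.cons_zero]
          have h4 := hsep i' (-l)
          have e : α i' - β - l = -(β - α i' - (-l : ℤ)) := by push_cast; ring
          rw [e, abs_neg]
          exact h4
        · simp only [Fin.cons_succ]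
          exact h1 i' j' (fun h5 => h (by rw [h5])) l
    · intro i
      refine Fin.cases ?_ (fun i' => ?_) i
      · simpa using hβ
      · simpa using h2 i'
  have h5 := Nat.le_findGreatest (hPC _ hP1) hP1
  omega

end Pool.Agent.H419.BS
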