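import Mathlib

/-! Definitions for the Sato-Tate law along the primes of Bohr sets. -/

set_option autoImplicit false

namespace Pool.Agent.H419.BS

open NumberField IsDedekindDomain Filter Topology MeasureTheory
open scoped ENNReal

/-- Gauge functions `h` on `[0, ∞]` with `∑_j 2^{j(r-1)} h(2^{-j}) < ∞`. -/
structure IsGauge (r : ℕ) (h : ℝ≥0∞ → ℝ≥0∞) : Prop where
  mono : Monotone h
  summable : ∑' j : ℕ, (2 : ℝ≥0∞) ^ (j * (r - 1)) * h ((2 : ℝ≥0∞)⁻¹ ^ j) ≠ ∞

variable {K : Type} [Field K] [NumberField K]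

/-- The norm `q_v`. -/
noncomputable def q (v : HeightOneSpectrum (𝓞 K)) : ℕ := Ideal.absNorm v.asIdeal

/-- The mean value of `φ` over the primes `v` with `P v` and `q_v ≤ N`. -/
noncomputable def mean (P : HeightOneSpectrum (𝓞 K) → Prop) (φ : HeightOneSpectrum (𝓞 K) → ℂ)
    (N : ℕ) : ℂ :=
  (∑ᶠ v : {v : HeightOneSpectrum (𝓞 K) // P v ∧ q v ≤ N}, φ v.1) /
    (Nat.card {v : HeightOneSpectrum (𝓞 K) // P v ∧ q v ≤ N} : ℂ)

/-- The mean value over all primes with `q_v ≤ N`. -/
noncomputable abbrev meanAll (φ : HeightOneSpectrum (𝓞 K) → ℂ) (N : ℕ) : ℂ :=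
  mean (fun _ => True) φ N

/-- The classes of the `x v`, for the primes `v` with `P v`, are equidistributed in the space of
conjugacy classes. -/
def Equidistributed {G : Type} [Group G] [TopologicalSpace G] [MeasurableSpace G]
    (P : HeightOneSpectrum (𝓞 K) → Prop) (x : HeightOneSpectrum (𝓞 K) → G) (μ : Measure G) :
    Prop :=
  ∀ f : G → ℂ, Continuous f → (∀ g h, f (h * g * h⁻¹) = f g) →
    Tendsto (mean P fun v => f (x v)) atTop (𝓝 (∫ g, f g ∂μ))

/-- The point `α q_v` of the torus `(ℝ/ℤ)^r`. -/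
noncomputable def pt {r : ℕ} (α : Fin r → ℝ) (v : HeightOneSpectrum (𝓞 K)) :
    UnitAddTorus (Fin r) :=
  fun j => ((α j * q v : ℝ) : UnitAddCircle)

/-- The Haar probability measure of the torus. -/
noncomputable def haarT (r : ℕ) : Measure (UnitAddTorus (Fin r)) :=
  Measure.pi fun _ : Fin r => (AddCircle.haarAddCircle : Measure UnitAddCircle)

/-- The `x v` and the points `α q_v` are independent in the limit, and the second ones are
uniformly distributed: for all continuous `F` the mean value of `F (x v, α q_v)` is in the limit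
the one of `∫ F (x v, y) dy`. -/
def Independent {X : Type} [TopologicalSpace X] (x : HeightOneSpectrum (𝓞 K) → X) {r : ℕ}
    (α : Fin r → ℝ) : Prop :=
  ∀ F : X × UnitAddTorus (Fin r) → ℂ, Continuous F →
    Tendsto (fun N => meanAll (fun v => F (x v, pt α v)) N -
      meanAll (fun v => ∫ y, F (x v, y) ∂(haarT r)) N) atTop (𝓝 0)

end Pool.Agent.H419.BS
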