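import Mathlib

/-! Approximation on the product of a compact space with a torus. -/

set_option autoImplicit false
set_option linter.unusedSectionVars false

namespace Pool.Agent.H419.BS

open Filter Topology MeasureTheory UnitAddTorus Algebra

section SW

variable {X : Type} [TopologicalSpace X] [CompactSpace X] [T2Space X] {r : ℕ}

/-- the product function -/
noncomputable def tens (f : C(X, ℂ)) (m : Fin r → ℤ) : C(X × UnitAddTorus (Fin r), ℂ) :=
  (f.comp ⟨Prod.fst, continuous_fst⟩) * ((mFourier m).comp ⟨Prod.snd, continuous_snd⟩)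

theorem tens_apply (f : C(X, ℂ)) (m : Fin r → ℤ) (p : X × UnitAddTorus (Fin r)) :
    tens f m p = f p.1 * mFourier m p.2 := rfl

variable (X r) in
/-- the products -/
def prods : Set C(X × UnitAddTorus (Fin r), ℂ) := {F | ∃ f m, F = tens f m}

variable (X r) in
/-- the star subalgebra generated by the products -/
noncomputable def alg : StarSubalgebra ℂ C(X × UnitAddTorus (Fin r), ℂ) where
  toSubalgebra := Algebra.adjoin ℂ (prods X r)
  star_mem' := by
    change Algebra.adjoin ℂ (prods X r) ≤ star (Algebra.adjoin ℂ (prods X r))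
    refine adjoin_le ?_
    rintro _ ⟨f, n, rfl⟩
    refine subset_adjoin ⟨star f, -n, ?_⟩
    ext1 x
    simp only [tens_apply, mFourier_neg, starRingEnd_apply, ContinuousMap.star_apply, star_mul']

theorem alg_coe : (alg X r).toSubalgebra.toSubmodule = Submodule.span ℂ (prods X r) := by
  apply adjoin_eq_span_of_subset
  refine .trans (fun x ↦ Submonoid.closure_induction (fun _ ↦ id) ⟨1, 0, ?_⟩ ?_)
    Submodule.subset_span
  · ext z
    rw [tens_apply, mFourier_zero]
    simp
  · rintro _ _ _ _ ⟨f, m, rfl⟩ ⟨g, n, rfl⟩
    refine ⟨f * g, m + n, ?_⟩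
    ext z
    rw [ContinuousMap.mul_apply, tens_apply, tens_apply, tens_apply, mFourier_add,
      ContinuousMap.mul_apply]
    ring

theorem alg_sep : (alg X r).SeparatesPoints := by
  classical
  rintro ⟨x, y⟩ ⟨x', y'⟩ hxy
  by_cases hx : x = x'
  · have hy : y ≠ y' := fun h => hxy (by rw [hx, h])
    rw [Ne, funext_iff, not_forall] at hy
    obtain ⟨i, hi⟩ := hy
    refine ⟨_, ⟨tens 1 (Pi.single i 1), subset_adjoin ⟨1, Pi.single i 1, rfl⟩, rfl⟩, ?_⟩
    dsimp only
    rw [tens_apply, tens_apply]
    simp only [ContinuousMap.one_apply, one_mul]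
    rw [mFourier_single, mFourier_single, fourier_one, fourier_one]
    intro hcon
    exact hi (AddCircle.injective_toCircle one_ne_zero (Circle.ext hcon))
  · obtain ⟨f, hf0, hf1, _⟩ := exists_continuous_zero_one_of_isClosed (isClosed_singleton (x := x))
      (isClosed_singleton (x := x')) (by simpa using hx)
    let g : C(X, ℂ) := ⟨fun t => (f t : ℂ), by fun_prop⟩
    refine ⟨_, ⟨tens g (0 : Fin r → ℤ), subset_adjoin ⟨g, 0, rfl⟩, rfl⟩, ?_⟩
    dsimp only
    rw [tens_apply, tens_apply, mFourier_zero]
    have h0 : f x = 0 := hf0 rfl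
    have h1 : f x' = 1 := hf1 rfl
    simp [g, h0, h1]

/-- **The span of the products is dense.** -/
theorem span_dense : (Submodule.span ℂ (prods X r)).topologicalClosure = ⊤ := by
  rw [← alg_coe]
  exact congr_arg (Subalgebra.toSubmodule <| StarSubalgebra.toSubalgebra ·)
    (ContinuousMap.starSubalgebra_topologicalClosure_eq_top_of_separatesPoints _ alg_sep)

/-- a closed subspace which contains the products is everything -/
theorem mem_of_prods (V : Submodule ℂ C(X × UnitAddTorus (Fin r), ℂ))
    (hV : IsClosed (V : Set C(X × UnitAddTorus (Fin r), ℂ)))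
    (h : ∀ f m, tens f m ∈ V) (F : C(X × UnitAddTorus (Fin r), ℂ)) : F ∈ V := by
  have h1 : Submodule.span ℂ (prods X r) ≤ V := by
    rw [Submodule.span_le]
    rintro _ ⟨f, m, rfl⟩
    exact h f m
  have h2 := Submodule.topologicalClosure_minimal _ h1 hV
  rw [span_dense] at h2
  exact h2 trivial

end SW

section sandwich

variable {T : Type} [PseudoEMetricSpace T] [MeasurableSpace T] [BorelSpace T] (ν : Measure T)
  [IsProbabilityMeasure ν]

/-- continuous functions below and above the indicator function of a set with null frontier -/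
theorem sandwich {B : Set T} (hB : ν (frontier B) = 0) {ε : ℝ} (hε : 0 < ε) :
    ∃ g₁ g₂ : C(T, ℝ), (∀ y, g₁ y ≤ B.indicator (fun _ => (1 : ℝ)) y) ∧
      (∀ y, B.indicator (fun _ => (1 : ℝ)) y ≤ g₂ y) ∧
      (ν.real B - ε < ∫ y, g₁ y ∂ν) ∧ (∫ y, g₂ y ∂ν < ν.real B + ε) := by
  classical
  have hδ : ∀ n : ℕ, (0 : ℝ) < 1 / ((n : ℝ) + 1) := fun n => by positivity
  have hlim : Tendsto (fun n : ℕ => 1 / ((n : ℝ) + 1)) atTop (𝓝 0) :=
    tendsto_one_div_add_atTop_nhds_zero_nat
  have hcl : ν.real (closure B) = ν.real B := by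
    rw [measureReal_def, measureReal_def]
    congr 1
    refine le_antisymm ?_ (measure_mono subset_closure)
    calc ν (closure B) ≤ ν (B ∪ frontier B) := by
          refine measure_mono fun y hy => ?_
          by_cases h : y ∈ interior B
          · exact Or.inl (interior_subset h)
          · exact Or.inr ⟨hy, h⟩
      _ ≤ ν B + ν (frontier B) := measure_union_le _ _
      _ = ν B := by rw [hB, add_zero]
  have hint : ν.real (closure Bᶜ) = 1 - ν.real B := by
    have h1 : closure Bᶜ = (interior B)ᶜ := closure_compl
    rw [h1, probReal_compl_eq_one_sub isOpen_interior.measurableSet]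
    congr 1
    rw [measureReal_def, measureReal_def]
    congr 1
    refine le_antisymm (measure_mono interior_subset) ?_
    calc ν B ≤ ν (interior B ∪ frontier B) := by
          refine measure_mono fun y hy => ?_
          by_cases h : y ∈ interior B
          · exact Or.inl h
          · exact Or.inr ⟨subset_closure hy, h⟩
      _ ≤ ν (interior B) + ν (frontier B) := measure_union_le _ _
      _ = _ := by rw [hB, add_zero]
  have h2 := tendsto_integral_thickenedIndicator_of_isClosed ν (isClosed_closure (s := B)) hδ hlim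
  have h1 := tendsto_integral_thickenedIndicator_of_isClosed ν (isClosed_closure (s := Bᶜ)) hδ hlim
  rw [hcl] at h2
  rw [hint] at h1
  obtain ⟨n, hn2, hn1⟩ := ((h2.eventually_lt_const (show ν.real B < ν.real B + ε by linarith)).and
    (h1.eventually_lt_const (show 1 - ν.real B < 1 - ν.real B + ε by linarith))).exists
  refine ⟨⟨fun y => 1 - (thickenedIndicator (hδ n) (closure Bᶜ) y : ℝ), by fun_prop⟩,
    ⟨fun y => (thickenedIndicator (hδ n) (closure B) y : ℝ), by fun_prop⟩, ?_, ?_, ?_, hn2⟩
  · intro y
    simp only [ContinuousMap.coe_mk]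
    by_cases hy : y ∈ B
    · rw [Set.indicator_of_mem hy]
      have : (0 : ℝ) ≤ (thickenedIndicator (hδ n) (closure Bᶜ) y : ℝ) := NNReal.coe_nonneg _
      linarith
    · rw [Set.indicator_of_notMem hy, thickenedIndicator_one (hδ n) _ (subset_closure hy)]
      simp
  · intro y
    simp only [ContinuousMap.coe_mk]
    by_cases hy : y ∈ B
    · rw [Set.indicator_of_mem hy, thickenedIndicator_one (hδ n) _ (subset_closure hy)]
      simp
    · rw [Set.indicator_of_notMem hy]
      exact NNReal.coe_nonneg _
  · simp only [ContinuousMap.coe_mk]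
    rw [integral_sub (integrable_const _) (integrable_thickenedIndicator _ (hδ n))]
    simp only [integral_const, probReal_univ, smul_eq_mul, mul_one]
    linarith

end sandwich

end Pool.Agent.H419.BS
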