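import Pool.Agent.H419.BS.Sum
import Pool.Agent.H419.BS.Torus

/-! The exceptional set and the joint law. -/

set_option autoImplicit false
set_option linter.unusedSectionVars false

namespace Pool.Agent.H419.BS

open NumberField IsDedekindDomain Filter Topology MeasureTheory UnitAddTorus
open Pool.Agent.W540.BE (upto nm mem_upto)
open Pool.Agent.Helper644_ST (card_pos_ev)
open scoped ENNReal NNReal

/-! ### Closed subspaces of null functionals -/

section functional

variable {E' : Type} [NormedAddCommGroup E'] [NormedSpace ℂ E']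

/-- the vectors on which the functionals tend to zero -/
def nullSub (L : ℕ → E' →ₗ[ℂ] ℂ) : Submodule ℂ E' where
  carrier := {F | Tendsto (fun N => L N F) atTop (𝓝 0)}
  add_mem' := by
    intro a b ha hb
    have h := Tendsto.add (f := fun N => L N a) (g := fun N => L N b) ha hb
    rw [add_zero] at h
    exact h.congr fun N => (map_add _ _ _).symm
  zero_mem' := by
    change Tendsto (fun N => L N 0) atTop (𝓝 0)
    simp
  smul_mem' := by
    intro c a ha
    have h := Tendsto.const_mul (f := fun N => L N a) c ha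
    rw [mul_zero] at h
    exact h.congr fun N => by rw [map_smul, smul_eq_mul]

theorem mem_nullSub {L : ℕ → E' →ₗ[ℂ] ℂ} {F : E'} :
    F ∈ nullSub L ↔ Tendsto (fun N => L N F) atTop (𝓝 0) := Iff.rfl

theorem closed_nullSub (L : ℕ → E' →ₗ[ℂ] ℂ) (C : ℝ) (hC : 0 < C)
    (hL : ∀ N F, ‖L N F‖ ≤ C * ‖F‖) : IsClosed (nullSub L : Set E') := by
  refine isClosed_of_closure_subset fun F hF => ?_
  rw [SetLike.mem_coe, mem_nullSub, Metric.tendsto_atTop']
  intro ε hε
  obtain ⟨G, hG, hFG⟩ := Metric.mem_closure_iff.1 hF (ε / (2 * C)) (by positivity)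
  obtain ⟨N₀, hN₀⟩ := (Metric.tendsto_atTop'.1 (mem_nullSub.1 hG)) (ε / 2) (by positivity)
  refine ⟨N₀, fun N hN => ?_⟩
  have h1 := hN₀ N hN
  rw [dist_zero_right] at h1 ⊢
  have h2 : ‖L N (F - G)‖ ≤ C * ‖F - G‖ := hL N _
  rw [dist_eq_norm] at hFG
  have h3 : C * ‖F - G‖ < ε / 2 := by
    calc C * ‖F - G‖ < C * (ε / (2 * C)) := mul_lt_mul_of_pos_left hFG hC
      _ = ε / 2 := by field_simp
  calc ‖L N F‖ = ‖L N G + L N (F - G)‖ := by rw [← map_add]; congr 2; abel
    _ ≤ ‖L N G‖ + ‖L N (F - G)‖ := norm_add_le _ _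
    _ < ε := by linarith

end functional

/-! ### Fourier modes -/

instance (r : ℕ) : IsProbabilityMeasure (haarT r) := by
  unfold haarT
  infer_instance

theorem integral_mFourier {r : ℕ} {m : Fin r → ℤ} (hm : m ≠ 0) :
    ∫ y, mFourier m y ∂(haarT r) = 0 := by
  obtain ⟨i, hi⟩ : ∃ i, m i ≠ 0 := by
    by_contra hcon
    push Not at hcon
    exact hm (funext hcon)
  have h1 : ∫ y, mFourier m y ∂(haarT r) =
      ∏ i, ∫ y, (fourier (m i) : C(UnitAddCircle, ℂ)) y ∂(AddCircle.haarAddCircle) := by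
    unfold haarT
    rw [← integral_fintype_prod_eq_prod]
    rfl
  rw [h1]
  refine Finset.prod_eq_zero (Finset.mem_univ i) ?_
  exact integral_eq_zero_of_add_right_eq_neg (μ := AddCircle.haarAddCircle)
    (fourier_add_half_inv_index hi Fact.out)

variable {K : Type} [Field K] [NumberField K]

theorem mFourier_pt {r : ℕ} (m : Fin r → ℤ) (α : Fin r → ℝ) (v : HeightOneSpectrum (𝓞 K)) :
    mFourier m (pt α v) = E (nm K v) (lin m α) := by
  have h1 : mFourier m (pt α v) =
      ∏ i, (fourier (m i) : C(UnitAddCircle, ℂ)) ((α i * q v : ℝ) : UnitAddCircle) := rfl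
  rw [h1]
  simp only [fourier_coe_apply]
  rw [← Complex.exp_sum]
  unfold E lin
  congr 1
  push_cast
  rw [Finset.mul_sum]
  refine Finset.sum_congr rfl fun i _ => ?_
  change _ = 2 * Real.pi * Complex.I * (q v : ℂ) * (m i * α i)
  ring

/-! ### The exceptional set -/

section

variable {X : Type} [TopologicalSpace X] [CompactSpace X] [T2Space X]
  [SecondCountableTopology X]

/-- the dense sequence -/
noncomputable def ds (X : Type) [TopologicalSpace X] [CompactSpace X] [T2Space X]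
    [SecondCountableTopology X] : ℕ → C(X, ℂ) := TopologicalSpace.denseSeq C(X, ℂ)

/-- **The exceptional set.** -/
def Exc (x : HeightOneSpectrum (𝓞 K) → X) (r : ℕ) : Set (Fin r → ℝ) :=
  ⋃ (i : ℕ) (m : Fin r → ℤ) (_ : m ≠ 0) (k : ℕ),
    {α | ∃ᶠ N : ℕ in atTop, 1 / ((k : ℝ) + 1) * U K N ≤
      ‖S (fun v => ((‖ds X i‖ + 1 : ℝ) : ℂ)⁻¹ * ds X i (x v)) N (lin m α)‖}

theorem Exc_null (x : HeightOneSpectrum (𝓞 K) → X) (r : ℕ) {h : ℝ≥0∞ → ℝ≥0∞}
    (hh : IsGauge r h) : Measure.mkMetric h (Exc x r) = 0 := by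
  unfold Exc
  refine measure_iUnion_null fun i => measure_iUnion_null fun m => measure_iUnion_null fun hm =>
    measure_iUnion_null fun k => ?_
  refine bad_null m hm hh (fun v => ?_) (by positivity)
  have h1 : ‖ds X i (x v)‖ ≤ ‖ds X i‖ := ContinuousMap.norm_coe_le_norm _ _
  have h2 : (0 : ℝ) < ‖ds X i‖ + 1 := by positivity
  rw [norm_mul, norm_inv, Complex.norm_real, Real.norm_of_nonneg h2.le, inv_mul_le_iff₀ h2]
  linarith

/-- outside of the exceptional set -/
theorem tend_of_notMem {x : HeightOneSpectrum (𝓞 K) → X} {r : ℕ} {α : Fin r → ℝ}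
    (hα : α ∉ Exc x r) (i : ℕ) {m : Fin r → ℤ} (hm : m ≠ 0) :
    Tendsto (fun N => S (fun v => ds X i (x v)) N (lin m α) / (U K N : ℂ)) atTop (𝓝 0) := by
  have h2 : (0 : ℝ) < ‖ds X i‖ + 1 := by positivity
  rw [Metric.tendsto_atTop']
  intro ε hε
  obtain ⟨k, hk⟩ := exists_nat_one_div_lt (show 0 < ε / (‖ds X i‖ + 1) by positivity)
  have h3 : ∀ᶠ N : ℕ in atTop, ‖S (fun v => ((‖ds X i‖ + 1 : ℝ) : ℂ)⁻¹ * ds X i (x v)) N
      (lin m α)‖ < 1 / ((k : ℝ) + 1) * U K N := by
    by_contra hcon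
    apply hα
    unfold Exc
    simp only [Set.mem_iUnion]
    refine ⟨i, m, hm, k, ?_⟩
    rw [Set.mem_ofPred_eq]
    intro h
    exact hcon (h.mono fun N hN => not_le.1 hN)
  obtain ⟨N₀, hN₀⟩ := eventually_atTop.1 (h3.and (card_pos_ev (F := K)))
  refine ⟨N₀, fun N hN => ?_⟩
  obtain ⟨h4, h5⟩ := hN₀ N hN.le
  have hU : 0 < U K N := h5
  have e1 : S (fun v => ((‖ds X i‖ + 1 : ℝ) : ℂ)⁻¹ * ds X i (x v)) N (lin m α) =
      ((‖ds X i‖ + 1 : ℝ) : ℂ)⁻¹ * S (fun v => ds X i (x v)) N (lin m α) := by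
    unfold S
    rw [Finset.mul_sum]
    exact Finset.sum_congr rfl fun v _ => by ring
  rw [e1, norm_mul, norm_inv, Complex.norm_real, Real.norm_of_nonneg h2.le,
    inv_mul_lt_iff₀ h2] at h4
  rw [dist_zero_right, norm_div, Complex.norm_real, Real.norm_of_nonneg hU.le, div_lt_iff₀ hU]
  refine h4.trans ?_
  rw [← mul_assoc]
  refine mul_lt_mul_of_pos_right ?_ hU
  rw [lt_div_iff₀ h2] at hk
  linarith

/-! ### The functionals -/

/-- the discrepancy functional -/
noncomputable def Dfun (x : HeightOneSpectrum (𝓞 K) → X) {r : ℕ} (α : Fin r → ℝ) (N : ℕ) :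
    C(X × UnitAddTorus (Fin r), ℂ) →ₗ[ℂ] ℂ where
  toFun F := (∑ v ∈ upto K N, (F (x v, pt α v) - ∫ y, F (x v, y) ∂(haarT r))) / (U K N : ℂ)
  map_add' F G := by
    rw [← add_div, ← Finset.sum_add_distrib]
    congr 1
    refine Finset.sum_congr rfl fun v _ => ?_
    have h1 : Integrable (fun y => F (x v, y)) (haarT r) :=
      (by fun_prop : Continuous fun y => F (x v, y)).integrable_of_hasCompactSupport
        (HasCompactSupport.of_compactSpace _)
    have h2 : Integrable (fun y => G (x v, y)) (haarT r) :=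
      (by fun_prop : Continuous fun y => G (x v, y)).integrable_of_hasCompactSupport
        (HasCompactSupport.of_compactSpace _)
    simp only [ContinuousMap.add_apply]
    rw [integral_add h1 h2]
    ring
  map_smul' c F := by
    simp only [ContinuousMap.smul_apply, smul_eq_mul, RingHom.id_apply]
    rw [← mul_div_assoc, Finset.mul_sum]
    congr 1
    refine Finset.sum_congr rfl fun v _ => ?_
    rw [integral_const_mul]
    ring

theorem norm_Dfun (x : HeightOneSpectrum (𝓞 K) → X) {r : ℕ} (α : Fin r → ℝ) (N : ℕ)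
    (F : C(X × UnitAddTorus (Fin r), ℂ)) : ‖Dfun x α N F‖ ≤ 2 * ‖F‖ := by
  change ‖(∑ v ∈ upto K N, (F (x v, pt α v) - ∫ y, F (x v, y) ∂(haarT r))) / (U K N : ℂ)‖ ≤ _
  have hU : 0 ≤ U K N := by unfold U; positivity
  rw [norm_div, Complex.norm_real, Real.norm_of_nonneg hU]
  refine div_le_of_le_mul₀ hU (by positivity) ?_
  refine (norm_sum_le _ _).trans ?_
  refine (Finset.sum_le_card_nsmul _ _ (2 * ‖F‖) fun v _ => ?_).trans ?_
  · refine (norm_sub_le _ _).trans ?_
    have h1 : ‖F (x v, pt α v)‖ ≤ ‖F‖ := ContinuousMap.norm_coe_le_norm _ _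
    have h2 : ‖∫ y, F (x v, y) ∂(haarT r)‖ ≤ ‖F‖ := by
      refine (norm_integral_le_of_norm_le_const (C := ‖F‖)
        (Eventually.of_forall fun y => ContinuousMap.norm_coe_le_norm _ _)).trans ?_
      simp
    linarith
  · rw [nsmul_eq_mul]
    apply le_of_eq
    unfold U
    ring

/-- **Independence.** -/
theorem indep {x : HeightOneSpectrum (𝓞 K) → X} {r : ℕ} {α : Fin r → ℝ} (hα : α ∉ Exc x r)
    (F : C(X × UnitAddTorus (Fin r), ℂ)) :
    Tendsto (fun N => Dfun x α N F) atTop (𝓝 0) := by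
  have hcl := closed_nullSub (Dfun x α) 2 two_pos (norm_Dfun x α)
  refine mem_of_prods (nullSub (Dfun x α)) hcl (fun f m => ?_) F
  -- the products
  have hcont : Continuous fun f : C(X, ℂ) => tens f m := by
    unfold tens
    exact (ContinuousMap.continuous_precomp _).mul continuous_const
  have hd : DenseRange (ds X) := TopologicalSpace.denseRange_denseSeq _
  refine hd.induction_on (p := fun f => tens f m ∈ nullSub (Dfun x α)) f
    (hcl.preimage hcont) fun i => ?_
  rw [mem_nullSub]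
  by_cases hm : m = 0
  · refine tendsto_const_nhds.congr fun N => ?_
    change 0 = (∑ v ∈ upto K N, (tens (ds X i) m (x v, pt α v) -
      ∫ y, tens (ds X i) m (x v, y) ∂(haarT r))) / (U K N : ℂ)
    rw [Finset.sum_eq_zero, zero_div]
    intro v _
    simp only [tens_apply, hm, mFourier_zero, ContinuousMap.one_apply, mul_one]
    rw [integral_const, probReal_univ, one_smul, sub_self]
  · refine (tend_of_notMem hα i hm).congr fun N => ?_
    change _ = (∑ v ∈ upto K N, (tens (ds X i) m (x v, pt α v) -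
      ∫ y, tens (ds X i) m (x v, y) ∂(haarT r))) / (U K N : ℂ)
    congr 1
    unfold S
    refine Finset.sum_congr rfl fun v _ => ?_
    simp only [tens_apply]
    rw [integral_const_mul, integral_mFourier hm, mul_zero, sub_zero, mFourier_pt]

end

end Pool.Agent.H419.BS
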